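import Pool.Agent.H240.CG.EDef
import Pool.Graph.R_seed8.Y950.EG.Clair
import Pool.Graph.R_seed8.Y117.EG.KP
import Pool.Graph.R_seed8.Y693.EG.Clp
import Pool.Graph.R_seed8.Y380.EG.PK

/-!
# Surfaces of negative curvature outside of one closed geodesic: part A
(adapted from the library files `Y950/EG/Clair`, `Y117/EG/KP`, `Y693/EG/Clp`, `Y380/EG/PK`)
-/

set_option autoImplicit false

open Set Filter Topology MeasureTheory
open scoped ContDiff

noncomputable section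

namespace Pool.Agent.H284.CG

open Pool.Agent.Y262.EG
open Pool.Agent.H240.CG
open Pool.Agent.Y950.EG (rot_deriv)
open Pool.Agent.Y117.EG (norm_HH)
open Pool.Agent.Y693.EG (stp_open stp_mono closure_stp tr_re tr_im tr_stp pr_int mod_two_pi
  germ_angle Bs bs_meas Rs rs_meas rs_fin bs_vol stay)

/-- **CLAIR**. -/
theorem clair2 : StClair2 := by
  intro Ω φ L δ δ' x0 g hΩ hφ hL hδ hδ' hx0 hx0L hsub hrot hgx0 hgd0 hcurv
  set I' : Set ℝ := Ioo (-δ') (L + δ') with hI'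
  have mem : ∀ x ∈ I', (x : ℂ) ∈ Stp L δ' := fun x hx => hx
  have hdφ : ∀ z ∈ Stp L δ', DifferentiableAt ℝ φ z := fun z hz =>
    (hφ.contDiffAt (hΩ.mem_nhds (hsub hz))).differentiableAt (by simp)
  set g1 : ℝ → ℝ := fun x => px φ (x : ℂ) with hg1
  have hg : ∀ x ∈ I', HasDerivAt g (g1 x) x := fun x hx => by
    have := (rot_deriv hrot (mem x hx) (hdφ _ (mem x hx))).1
    simpa using this
  have hpy : ∀ z ∈ Stp L δ', py φ z = 0 := fun z hz => (rot_deriv hrot hz (hdφ z hz)).2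
  have hpx : ∀ z ∈ Stp L δ', px φ z = g1 z.re := fun z hz => by
    have h1 := (rot_deriv hrot hz (hdφ z hz)).1
    exact h1.unique (hg z.re hz)
  have hstp : IsOpen (Stp L δ') :=
    (isOpen_Ioo (a := -δ') (b := L + δ')).preimage Complex.continuous_re
  have hdpx : ∀ z ∈ Stp L δ', DifferentiableAt ℝ (px φ) z := fun z hz => by
    have h1 : ContDiffAt ℝ ∞ φ z := hφ.contDiffAt (hΩ.mem_nhds (hsub hz))
    have h2 : ContDiffAt ℝ ∞ (fderiv ℝ φ) z := h1.fderiv_right (m := ∞) (by simp)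
    exact (h2.differentiableAt (by simp)).clm_apply (differentiableAt_const _)
  have hg1d : ∀ x ∈ I', HasDerivAt g1 (px (px φ) (x : ℂ)) x := fun x hx => by
    have := (rot_deriv hpx (mem x hx) (hdpx _ (mem x hx))).1
    simpa using this
  have hg2 : ∀ x ∈ I', 0 ≤ px (px φ) (x : ℂ) := fun x hx => by
    have h1 := hcurv x (mem x hx)
    have h2 : py (py φ) (x : ℂ) = 0 := by
      have h3 : py φ =ᶠ[𝓝 (x : ℂ)] fun _ => 0 := by
        filter_upwards [hstp.mem_nhds (mem x hx)] with z hz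
        exact hpy z hz
      unfold py at h3 ⊢
      rw [h3.fderiv_eq]
      simp
    unfold curv at h1
    rw [h2, add_zero] at h1
    have h4 := Real.exp_pos (-2 * φ x)
    by_contra h5
    push Not at h5
    nlinarith [mul_neg_of_pos_of_neg h4 h5]
  have hI'conv : Convex ℝ I' := convex_Ioo _ _
  have hmono : MonotoneOn g1 I' := by
    refine monotoneOn_of_deriv_nonneg hI'conv
      (fun x hx => (hg1d x hx).continuousAt.continuousWithinAt) ?_ ?_
    · intro x hx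
      exact (hg1d x (interior_subset hx)).differentiableAt.differentiableWithinAt
    · intro x hx
      rw [(hg1d x (interior_subset hx)).deriv]
      exact hg2 x (interior_subset hx)
  have hmid : x0 ∈ I' := ⟨by linarith, by linarith⟩
  have hg1mid : g1 x0 = 0 := (hg _ hmid).unique hgd0
  -- convexity
  have key : ∀ x, -δ < x → x < L + δ → 0 ≤ g x ∧ g x ≤ |g1 x| * (L + δ) := by
    intro x hx1 hx2
    have hxI : x ∈ I' := ⟨by linarith, by linarith⟩
    rcases lt_trichotomy x x0 with h0 | h0 | h0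
    · have hsub' : Icc x x0 ⊆ I' := fun y hy => ⟨by linarith [hy.1, hxI.1], by linarith [hy.2]⟩
      obtain ⟨ξ, hξ, he⟩ := exists_hasDerivAt_eq_slope g g1 h0
        (fun y hy => (hg y (hsub' hy)).continuousAt.continuousWithinAt)
        (fun y hy => hg y (hsub' (Ioo_subset_Icc_self hy)))
      have h1 : g1 x ≤ g1 ξ := hmono hxI (hsub' (Ioo_subset_Icc_self hξ)) hξ.1.le
      have h2 : g1 ξ ≤ 0 := by
        rw [← hg1mid]
        exact hmono (hsub' (Ioo_subset_Icc_self hξ)) hmid hξ.2.le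
      have h3 : x0 - x ≠ 0 := by linarith
      rw [eq_div_iff h3, hgx0] at he
      have h4 : g x = -g1 ξ * (x0 - x) := by linarith
      have h5 : -g1 ξ ≤ |g1 x| := by
        rw [abs_of_nonpos (h1.trans h2)]
        linarith
      rw [h4]
      refine ⟨mul_nonneg (by linarith) (by linarith), ?_⟩
      exact mul_le_mul h5 (by linarith) (by linarith) (abs_nonneg _)
    · rw [h0, hgx0]
      exact ⟨le_rfl, by positivity⟩
    · have hsub' : Icc x0 x ⊆ I' := fun y hy => ⟨by linarith [hy.1], by linarith [hy.2, hxI.2]⟩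
      obtain ⟨ξ, hξ, he⟩ := exists_hasDerivAt_eq_slope g g1 h0
        (fun y hy => (hg y (hsub' hy)).continuousAt.continuousWithinAt)
        (fun y hy => hg y (hsub' (Ioo_subset_Icc_self hy)))
      have h2 : g1 ξ ≤ g1 x := hmono (hsub' (Ioo_subset_Icc_self hξ)) hxI hξ.2.le
      have h3 : 0 ≤ g1 ξ := by
        rw [← hg1mid]
        exact hmono hmid (hsub' (Ioo_subset_Icc_self hξ)) hξ.1.le
      have h4 : x - x0 ≠ 0 := by linarith
      rw [eq_div_iff h4, hgx0, sub_zero] at he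
      rw [← he]
      refine ⟨mul_nonneg h3 (by linarith), ?_⟩
      exact mul_le_mul (h2.trans (le_abs_self _)) (by linarith) (by linarith) (abs_nonneg _)
  -- the maximum
  obtain ⟨G, hG0, hG⟩ : ∃ G : ℝ, 0 ≤ G ∧ ∀ x, -δ < x → x < L + δ → g x ≤ G := by
    have hc : ContinuousOn g (Icc (-δ) (L + δ)) := fun x hx =>
      (hg x ⟨by linarith [hx.1], by linarith [hx.2]⟩).continuousAt.continuousWithinAt
    obtain ⟨G, hG⟩ := (isCompact_Icc.image_of_continuousOn hc).bddAbove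
    refine ⟨max G 0, le_max_right _ _, fun x h1 h2 => ?_⟩
    exact (hG (mem_image_of_mem g ⟨h1.le, h2.le⟩)).trans (le_max_left _ _)
  set K := (L + 2 * δ) * Real.exp (2 * G) with hK
  have hK0 : 0 < K := by positivity
  set K2 := Real.exp G * (2 * (L + δ) * Real.exp G) with hK2
  have hK20 : 0 < K2 := by positivity
  refine ⟨K ^ 2 + K2, fun Fl hFl l hl p hp hstay => ?_⟩
  have hl0 : 0 < l := by linarith
  set x : ℝ → ℝ := fun t => (Fl t p).1.re with hx
  set θ : ℝ → ℝ := fun t => (Fl t p).2 with hθ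
  have hxm : ∀ t ∈ Icc 0 l, -δ < x t ∧ x t < L + δ := fun t ht => hstay t ht
  have hst : ∀ t ∈ Icc 0 l, (Fl t p).1 ∈ Stp L δ' := fun t ht =>
    ⟨by linarith [(hstay t ht).1], by linarith [(hstay t ht).2]⟩
  have hxI : ∀ t ∈ Icc 0 l, x t ∈ I' := fun t ht => hst t ht
  have hdx : ∀ t ∈ Icc 0 l, HasDerivAt x (Real.exp (-g (x t)) * Real.cos (θ t)) t := by
    intro t ht
    have h1 := (Complex.reCLM.comp (ContinuousLinearMap.fst ℝ ℂ ℝ)).hasFDerivAt.comp_hasDerivAt t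
      (hFl.ode t p hp)
    have h2 : (Complex.reCLM.comp (ContinuousLinearMap.fst ℝ ℂ ℝ)) (XX φ (Fl t p)) =
        Real.exp (-g (x t)) * Real.cos (θ t) := by
      show Real.exp (-φ (Fl t p).1) * Real.cos (Fl t p).2 = _
      rw [hrot _ (hst t ht)]
    rw [h2] at h1
    exact h1
  have hdθ : ∀ t ∈ Icc 0 l, HasDerivAt θ
      (Real.exp (-g (x t)) * (-(g1 (x t)) * Real.sin (θ t))) t := by
    intro t ht
    have h1 := (ContinuousLinearMap.snd ℝ ℂ ℝ).hasFDerivAt.comp_hasDerivAt t (hFl.ode t p hp)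
    have h2 : (ContinuousLinearMap.snd ℝ ℂ ℝ) (XX φ (Fl t p)) =
        Real.exp (-g (x t)) * (-(g1 (x t)) * Real.sin (θ t)) := by
      show Real.exp (-φ (Fl t p).1) * (-(px φ (Fl t p).1) * Real.sin (Fl t p).2 +
        py φ (Fl t p).1 * Real.cos (Fl t p).2) = _
      rw [hrot _ (hst t ht), hpy _ (hst t ht), hpx _ (hst t ht)]
      ring
    rw [h2] at h1
    exact h1
  have hdE : ∀ t ∈ Icc 0 l, HasDerivAt (fun t => Real.exp (g (x t)))
      (g1 (x t) * Real.cos (θ t)) t := by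
    intro t ht
    have h1 := ((hg (x t) (hxI t ht)).comp t (hdx t ht)).exp
    have h2 : Real.exp (g (x t)) * (g1 (x t) * (Real.exp (-g (x t)) * Real.cos (θ t))) =
        g1 (x t) * Real.cos (θ t) := by
      have : Real.exp (g (x t)) * Real.exp (-g (x t)) = 1 := by
        rw [← Real.exp_add, add_neg_cancel, Real.exp_zero]
      linear_combination (g1 (x t) * Real.cos (θ t)) * this
    rw [← h2]
    exact h1
  have hee : ∀ t, Real.exp (g (x t)) * Real.exp (-g (x t)) = 1 := fun t => by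
    rw [← Real.exp_add, add_neg_cancel, Real.exp_zero]
  have hdc : ∀ t ∈ Icc 0 l, HasDerivAt (fun t => Real.exp (g (x t)) * Real.sin (θ t)) 0 t := by
    intro t ht
    have h1 := (hdE t ht).mul (hdθ t ht).sin
    have h2 : g1 (x t) * Real.cos (θ t) * Real.sin (θ t) + Real.exp (g (x t)) *
        (Real.cos (θ t) * (Real.exp (-g (x t)) * (-(g1 (x t)) * Real.sin (θ t)))) = 0 := by
      linear_combination (-(g1 (x t)) * Real.cos (θ t) * Real.sin (θ t)) * hee t
    rw [← h2]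
    exact h1
  have hdb : ∀ t ∈ Icc 0 l, HasDerivAt (fun t => Real.exp (g (x t)) * Real.cos (θ t))
      (g1 (x t)) t := by
    intro t ht
    have h1 := (hdE t ht).mul (hdθ t ht).cos
    have h2 : g1 (x t) * Real.cos (θ t) * Real.cos (θ t) + Real.exp (g (x t)) *
        (-Real.sin (θ t) * (Real.exp (-g (x t)) * (-(g1 (x t)) * Real.sin (θ t)))) =
        g1 (x t) := by
      linear_combination (g1 (x t) * Real.sin (θ t) * Real.sin (θ t)) * hee t +
        g1 (x t) * Real.cos_sq_add_sin_sq (θ t)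
    rw [← h2]
    exact h1
  set cc : ℝ := Real.exp (g (x 0)) * Real.sin (θ 0) with hcc
  have hcc_const : ∀ t ∈ Icc 0 l, Real.exp (g (x t)) * Real.sin (θ t) = cc := by
    refine constant_of_has_deriv_right_zero
      (fun t ht => (hdc t ht).continuousAt.continuousWithinAt)
      (fun t ht => (hdc t (Ico_subset_Icc_self ht)).hasDerivWithinAt)
  have hsq : ∀ t ∈ Icc 0 l, (Real.exp (g (x t)) * Real.cos (θ t)) ^ 2 + cc ^ 2 =
      Real.exp (g (x t)) ^ 2 := by
    intro t ht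
    rw [← hcc_const t ht]
    linear_combination (Real.exp (g (x t)) ^ 2) * Real.cos_sq_add_sin_sq (θ t)
  have hgoal : Real.exp (g p.1.re) * (|Real.sin p.2|) = |cc| := by
    rw [hcc, abs_mul, abs_of_pos (Real.exp_pos _)]
    have h0 := hFl.zero p hp
    simp only [hx, hθ, h0]
  rw [hgoal]
  set c := |cc| with hc
  have hc0 : 0 ≤ c := abs_nonneg _
  have hcsq : cc ^ 2 = c ^ 2 := (sq_abs cc).symm
  have hll : 1 / l ≤ 1 := by
    rw [div_le_one hl0]; exact hl
  rcases lt_trichotomy c 1 with h1 | h1 | h1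
  · -- the orbit crosses the cylinder
    obtain ⟨ξ, hξ, he⟩ := exists_hasDerivAt_eq_slope x
      (fun t => Real.exp (-g (x t)) * Real.cos (θ t)) hl0
      (fun t ht => (hdx t ht).continuousAt.continuousWithinAt)
      (fun t ht => hdx t (Ioo_subset_Icc_self ht))
    have hξ' := Ioo_subset_Icc_self hξ
    rw [sub_zero, eq_div_iff hl0.ne'] at he
    have hdist : |x l - x 0| ≤ L + 2 * δ := by
      have a1 := hxm l ⟨hl0.le, le_rfl⟩
      have a2 := hxm 0 ⟨le_rfl, hl0.le⟩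
      rw [abs_le]
      constructor <;> linarith [a1.1, a1.2, a2.1, a2.2]
    have hgξ := key (x ξ) (hxm ξ hξ').1 (hxm ξ hξ').2
    have hGξ := hG (x ξ) (hxm ξ hξ').1 (hxm ξ hξ').2
    have hs := hsq ξ hξ'
    have he1 : 1 ≤ Real.exp (g (x ξ)) := Real.one_le_exp hgξ.1
    have hb : 1 - c ^ 2 ≤ (Real.exp (g (x ξ)) * Real.cos (θ ξ)) ^ 2 := by
      rw [hcsq] at hs
      nlinarith
    have hexpG : Real.exp (g (x ξ)) ≤ Real.exp G := Real.exp_le_exp.mpr hGξ
    -- x' = exp (-2g) b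
    have h2 : (Real.exp (g (x ξ)) * Real.cos (θ ξ)) * l = Real.exp (g (x ξ)) ^ 2 * (x l - x 0) := by
      rw [← he]
      linear_combination (-(Real.exp (g (x ξ)) * Real.cos (θ ξ) * l)) * hee ξ
    have h3 : (1 - c ^ 2) * l ^ 2 ≤ K ^ 2 := by
      calc (1 - c ^ 2) * l ^ 2 ≤ (Real.exp (g (x ξ)) * Real.cos (θ ξ)) ^ 2 * l ^ 2 := by gcongr
        _ = (Real.exp (g (x ξ)) ^ 2 * (x l - x 0)) ^ 2 := by rw [← h2]; ring
        _ = (Real.exp (g (x ξ)) ^ 2 * |x l - x 0|) ^ 2 := by rw [mul_pow, mul_pow, sq_abs]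
        _ ≤ (Real.exp G ^ 2 * (L + 2 * δ)) ^ 2 := by gcongr
        _ = K ^ 2 := by
            rw [hK, ← Real.exp_nat_mul]
            push_cast
            ring
    have h4 : 1 - c ≤ 1 - c ^ 2 := by nlinarith
    rw [abs_of_nonpos (by linarith), le_div_iff₀ hl0]
    have h5 : (1 - c ^ 2) * l ≤ (1 - c ^ 2) * l ^ 2 := by
      have : 0 ≤ 1 - c ^ 2 := by nlinarith
      have : l ≤ l ^ 2 := by nlinarith
      gcongr
    nlinarith
  · rw [h1, sub_self, abs_zero]
    positivity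
  · -- the orbit does not cross the cylinder
    obtain ⟨ξ, hξ, he⟩ := exists_hasDerivAt_eq_slope
      (fun t => Real.exp (g (x t)) * Real.cos (θ t)) (fun t => g1 (x t)) hl0
      (fun t ht => (hdb t ht).continuousAt.continuousWithinAt)
      (fun t ht => hdb t (Ioo_subset_Icc_self ht))
    have hξ' := Ioo_subset_Icc_self hξ
    rw [sub_zero, eq_div_iff hl0.ne'] at he
    have hbb : ∀ t ∈ Icc 0 l, |Real.exp (g (x t)) * Real.cos (θ t)| ≤ Real.exp G := by
      intro t ht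
      rw [abs_mul, abs_of_pos (Real.exp_pos _)]
      have a1 := Real.abs_cos_le_one (θ t)
      have a2 : Real.exp (g (x t)) ≤ Real.exp G :=
        Real.exp_le_exp.mpr (hG (x t) (hxm t ht).1 (hxm t ht).2)
      calc Real.exp (g (x t)) * |Real.cos (θ t)| ≤ Real.exp G * 1 := by gcongr
        _ = Real.exp G := mul_one _
    have hce : c ≤ Real.exp (g (x ξ)) := by
      have hs := hsq ξ hξ'
      rw [hcsq] at hs
      have : c ^ 2 ≤ Real.exp (g (x ξ)) ^ 2 := by nlinarith [sq_nonneg (Real.exp (g (x ξ)) *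
        Real.cos (θ ξ))]
      exact abs_le_of_sq_le_sq' this (Real.exp_pos _).le |>.2
    have hlog : Real.log c ≤ g (x ξ) := by
      rw [← Real.log_exp (g (x ξ))]
      exact Real.log_le_log (by linarith) hce
    have hgξ := key (x ξ) (hxm ξ hξ').1 (hxm ξ hξ').2
    have hGξ := hG (x ξ) (hxm ξ hξ').1 (hxm ξ hξ').2
    have h2 : |g1 (x ξ)| * l ≤ 2 * Real.exp G := by
      have a1 := hbb l ⟨hl0.le, le_rfl⟩
      have a2 := hbb 0 ⟨le_rfl, hl0.le⟩
      have a3 : |g1 (x ξ)| * l = |g1 (x ξ) * l| := by rw [abs_mul, abs_of_pos hl0]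
      rw [a3, he]
      refine (abs_sub _ _).trans ?_
      linarith
    have h3 : Real.log c * l ≤ 2 * (L + δ) * Real.exp G := by
      calc Real.log c * l ≤ (|g1 (x ξ)| * (L + δ)) * l := by
            refine mul_le_mul_of_nonneg_right (hlog.trans hgξ.2) hl0.le
        _ = (L + δ) * (|g1 (x ξ)| * l) := by ring
        _ ≤ (L + δ) * (2 * Real.exp G) := by gcongr
        _ = _ := by ring
    have hcpos : 0 < c := by linarith
    have h4 : c - 1 ≤ c * Real.log c := by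
      have := Real.one_sub_inv_le_log_of_pos hcpos
      have h5 : c * (1 - c⁻¹) ≤ c * Real.log c := by gcongr
      have h6 : c * (1 - c⁻¹) = c - 1 := by field_simp
      linarith
    have hlc : 0 ≤ Real.log c := Real.log_nonneg h1.le
    have hcG : c ≤ Real.exp G := hce.trans (Real.exp_le_exp.mpr hGξ)
    rw [abs_of_pos (by linarith), le_div_iff₀ hl0]
    calc (c - 1) * l ≤ (c * Real.log c) * l := by gcongr
      _ = c * (Real.log c * l) := by ring
      _ ≤ Real.exp G * (2 * (L + δ) * Real.exp G) := by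
          refine mul_le_mul hcG h3 (by positivity) (by positivity)
      _ = K2 := rfl
      _ ≤ K ^ 2 + K2 := by nlinarith [sq_nonneg K]

/-- the curvature on the unit tangent bundle -/
theorem kp2 : StFrame → StEt → StDWP → StKP2 := by
  intro hF hE hD M P _ _ _ _ Ω φ pr q L δ δ' κ C x0 g hU hC
  obtain ⟨-, -, hcv, -⟩ := hF Ω φ hU.opn hU.smooth
  obtain ⟨-, -, hE3⟩ := hE M P Ω φ pr q hU
  obtain ⟨hl, -, hdw⟩ := hD M P Ω φ pr q hU
  have hYO : IsOpen (YO Ω) := hU.opn.preimage continuous_fst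
  have hkq : ∀ p ∈ YO Ω, kP Ω φ q (q p) = -curv φ p.1 := by
    intro p hp
    obtain ⟨U, A, hUo, hpU, hUs, hA, hAp, hAy⟩ :=
      hE3 p hp (lft Ω q (q p)) (hl (q p)).1 (hl (q p)).2.symm
    have h1 := (hAy p hpU).2.2.1
    unfold kP
    rw [← hAp, h1]
  have hAc : AcP Ω q (kP Ω φ q) := by
    unfold AcP
    have h1 : ContDiffOn ℝ 1 (fun p : Y => -curv φ p.1) (YO Ω) := by
      have h2 : ContDiffOn ℝ ∞ (fun p : Y => curv φ p.1) (YO Ω) :=
        hcv.comp contDiff_fst.contDiffOn (fun p hp => hp)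
      exact (h2.of_le (by exact_mod_cast le_top)).neg
    exact h1.congr hkq
  have hd : ∀ W, Fr φ W → ∀ p ∈ YO Ω, dW Ω q W (kP Ω φ q) (q p) =
      -fderiv ℝ (curv φ) p.1 (W p).1 := by
    intro W hW p hp
    rw [((hdw _ hAc).2 W hW).1 p hp]
    have h1 : (fun p => kP Ω φ q (q p)) =ᶠ[𝓝 p] fun p : Y => -curv φ p.1 := by
      filter_upwards [hYO.mem_nhds hp] with y hy
      exact hkq y hy
    rw [h1.fderiv_eq]
    have h2 : DifferentiableAt ℝ (curv φ) p.1 :=
      (hcv.contDiffAt (hU.opn.mem_nhds hp)).differentiableAt (by simp)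
    have h3 : HasFDerivAt (fun p : Y => -curv φ p.1)
        (-((fderiv ℝ (curv φ) p.1).comp (ContinuousLinearMap.fst ℝ ℂ ℝ))) p :=
      (h2.hasFDerivAt.comp p hasFDerivAt_fst).neg
    rw [h3.fderiv]
    simp
  have hsur : ∀ x : P, ∃ p ∈ YO Ω, q p = x := fun x => ⟨lft Ω q x, (hl x).1, (hl x).2⟩
  refine ⟨fun p hp => ⟨hkq p hp, hd _ (Or.inr (Or.inl rfl)) p hp⟩, hAc, fun x => ?_, fun x => ?_,
    fun x => ?_⟩
  · obtain ⟨p, hp, rfl⟩ := hsur x
    rw [hkq p hp]
    have := hC.neg p.1 hp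
    linarith
  · obtain ⟨p, hp, rfl⟩ := hsur x
    rw [hd _ (Or.inr (Or.inr rfl)) p hp]
    simp [VV]
  · obtain ⟨p, hp, rfl⟩ := hsur x
    rw [hd _ (Or.inr (Or.inl rfl)) p hp, hkq p hp, abs_neg]
    have h1 := hC.der p.1 hp
    have h2 : |fderiv ℝ (curv φ) p.1 (HH φ p).1| ≤ ‖fderiv ℝ (curv φ) p.1‖ * ‖(HH φ p).1‖ :=
      (fderiv ℝ (curv φ) p.1).le_opNorm _
    rw [norm_HH] at h2
    have h3 : |curv φ p.1| = -curv φ p.1 := abs_of_nonpos (hC.neg p.1 hp)
    rw [← h3]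
    calc |fderiv ℝ (curv φ) p.1 (HH φ p).1|
        ≤ ‖fderiv ℝ (curv φ) p.1‖ * Real.exp (-φ p.1) := h2
      _ = Real.exp (-φ p.1) * ‖fderiv ℝ (curv φ) p.1‖ := mul_comm _ _
      _ ≤ C * |curv φ p.1| ^ (39 / 40 : ℝ) := h1

/-- **Few vectors stay in the region of small curvature.** -/
theorem clp2 : StUniq → StClair2 → StSin → StEt → StFinP → StFlP → StKP2 → StClP2 := by
  intro _ hClair hSin _ hFinP hFlP hKP M P _ _ _ _ _ _ Ω φ pr q m Fl L δ δ' κ C x0 g hUT hL hG hCl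
  obtain ⟨C1, hC1⟩ := hClair Ω φ L δ δ' x0 g hUT.opn hUT.smooth hCl.posL hCl.posδ hCl.ltδ hCl.x0p
    hCl.x0L hCl.strip hCl.rot hCl.g0 hCl.g1 (fun z hz => hCl.neg z (hCl.strip hz))
  obtain ⟨C2, hC2⟩ := hSin
  obtain ⟨hfin, -, hB⟩ := hFinP M P Ω φ pr q m hUT hL
  obtain ⟨hF1, -, -, -⟩ := hFlP M P Ω φ pr q Fl hUT hG
  obtain ⟨hK1, -, -, -, -⟩ := hKP M P Ω φ pr q L δ δ' κ C x0 g hUT hCl
  have hδΩ : Stp L δ ⊆ Ω := (stp_mono hCl.ltδ).trans hCl.strip
  have hφ : ContinuousOn φ Ω := hUT.smooth.continuousOn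
  -- the metric is bounded on the strip
  obtain ⟨G, hG1⟩ : ∃ G : ℝ, ∀ z ∈ Stp L δ, φ z ≤ G := by
    have h1 : ContinuousOn (fun x : ℝ => φ (x : ℂ)) (Icc (-δ) (L + δ)) := by
      refine hφ.comp Complex.continuous_ofReal.continuousOn fun x hx => hCl.strip ?_
      have := hCl.ltδ
      refine ⟨?_, ?_⟩
      · rw [Complex.ofReal_re]
        linarith [hx.1]
      · rw [Complex.ofReal_re]
        linarith [hx.2]
    obtain ⟨G, hG⟩ := isCompact_Icc.bddAbove_image h1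
    refine ⟨G, fun z hz => ?_⟩
    have h2 : ((z.re : ℝ) : ℂ) ∈ Stp L δ := by
      refine ⟨?_, ?_⟩
      · rw [Complex.ofReal_re]; exact hz.1
      · rw [Complex.ofReal_re]; exact hz.2
    have h3 := hCl.rot z (stp_mono hCl.ltδ hz)
    have h4 := hCl.rot ((z.re : ℝ) : ℂ) (stp_mono hCl.ltδ h2)
    rw [Complex.ofReal_re] at h4
    rw [h3, ← h4]
    exact hG ⟨z.re, ⟨hz.1.le, hz.2.le⟩, rfl⟩
  -- the vectors of long stay
  have key : ∀ l : ℝ, 1 ≤ l → {x | ∀ t ∈ Icc 0 l, kP Ω φ q (FlP Ω q Fl t x) < κ} ⊆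
      q '' Bs φ L δ (max C1 0 / l) := by
    intro l hl x hx
    have hl0 : (0 : ℝ) < l := by linarith
    obtain ⟨p, hp, rfl⟩ : x ∈ q '' YO Ω := by rw [hUT.surjq]; exact mem_univ x
    have h1 : -κ < curv φ p.1 := by
      have := hx 0 ⟨le_refl _, hl0.le⟩
      rw [hF1 0 p hp, hG.zero p hp, (hK1 p hp).1] at this
      linarith
    obtain ⟨w, hw, hwp⟩ := hCl.low p.1 hp h1
    obtain ⟨n, hn⟩ := mod_two_pi w.im
    obtain ⟨w', hw'⟩ : ∃ w' : ℂ, w' = w + n * (2 * Real.pi * Complex.I) := ⟨_, rfl⟩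
    have hw'S : w' ∈ Stp L δ := by rw [hw']; exact tr_stp n hw
    have hw'p : pr p.1 = pr w' := by
      rw [hw', pr_int hCl.per (stp_mono hCl.ltδ hw) n, hwp]
    obtain ⟨θ, hθ⟩ := hUT.deck p.1 hp w' (hδΩ hw'S) hw'p p.2
    obtain ⟨k, hk⟩ := mod_two_pi θ
    have hge := germ_angle k hθ
    obtain ⟨p0, hp0⟩ : ∃ p0 : Y, p0 = (w', θ + k * (2 * Real.pi)) := ⟨_, rfl⟩
    rw [← hp0] at hge
    have hp0Ω : p0 ∈ YO Ω := by rw [hp0]; exact hδΩ hw'S
    have hq : q p = q p0 := (hUT.rel p hp p0 hp0Ω).2 hge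
    have h2 : ∀ t ∈ Icc 0 l, -κ < curv φ (Fl t p0).1 := by
      intro t ht
      have := hx t ht
      rw [hq, hF1 t p0 hp0Ω, (hK1 _ (hG.maps t p0 hp0Ω)).1] at this
      linarith
    have hcont : Continuous fun t => (Fl t p0).1 := by
      refine continuous_fst.comp ?_
      exact continuous_iff_continuousAt.2 fun t => (hG.ode t p0 hp0Ω).continuousAt
    have h3 := stay hCl.ltδ hCl.inj hcont hl0.le (by
      show (Fl 0 p0).1 ∈ Stp L δ
      rw [hG.zero p0 hp0Ω, hp0]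
      exact hw'S) (fun t ht => hCl.low _ (hG.maps t p0 hp0Ω) (h2 t ht))
    have h4 := hC1 Fl hG l hl p0 hp0Ω h3
    refine ⟨p0, ⟨?_, ?_, ?_, ?_⟩, hq.symm⟩
    · rw [hp0]; exact hw'S
    · rw [hp0]
      show w'.im ∈ Icc 0 (2 * Real.pi)
      rw [hw', tr_im]
      exact hn
    · rw [hp0]; exact hk
    · have h5 : φ p0.1 = g p0.1.re := hCl.rot _ (stp_mono hCl.ltδ (by rw [hp0]; exact hw'S))
      rw [h5]
      refine h4.trans ?_
      exact div_le_div_of_nonneg_right (le_max_left _ _) hl0.le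
  obtain ⟨D, hD⟩ : ∃ D : ℝ, D = max C1 0 := ⟨_, rfl⟩
  have hD0 : 0 ≤ D := by rw [hD]; exact le_max_right _ _
  rw [← hD] at key
  obtain ⟨E, hE⟩ : ∃ E : ℝ, E = max C2 0 := ⟨_, rfl⟩
  have hE0 : 0 ≤ E := by rw [hE]; exact le_max_right _ _
  have hC2' : ∀ a ε : ℝ, 0 < a → 0 ≤ ε → ε ≤ 1 →
      volume {θ : ℝ | θ ∈ Icc 0 (2 * Real.pi) ∧ |a * (|Real.sin θ|) - 1| ≤ ε} ≤
        ENNReal.ofReal (E * Real.sqrt ε) := fun a ε h1 h2 h3 =>
    (hC2 a ε h1 h2 h3).trans (ENNReal.ofReal_le_ofReal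
      (mul_le_mul_of_nonneg_right (by rw [hE]; exact le_max_left _ _) (Real.sqrt_nonneg _)))
  obtain ⟨V, hV⟩ : ∃ V : ℝ, V = (volume (Rs L δ)).toReal := ⟨_, rfl⟩
  have hV0 : 0 ≤ V := by rw [hV]; exact ENNReal.toReal_nonneg
  have hVe : volume (Rs L δ) = ENNReal.ofReal V := by
    rw [hV, ENNReal.ofReal_toReal (rs_fin L δ).ne]
  obtain ⟨W, hW⟩ : ∃ W : ℝ, W = (m univ).toReal := ⟨_, rfl⟩
  have hW0 : 0 ≤ W := by rw [hW]; exact ENNReal.toReal_nonneg
  have hWe : m univ = ENNReal.ofReal W := by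
    rw [hW, ENNReal.ofReal_toReal (measure_ne_top m univ)]
  refine ⟨Real.exp (2 * G) * (E * Real.sqrt D * V) + W * Real.sqrt D, fun l hl => ?_⟩
  have hl0 : (0 : ℝ) < l := by linarith
  have hsl : 0 < Real.sqrt l := Real.sqrt_pos.2 hl0
  have hsq : Real.sqrt (D / l) = Real.sqrt D / Real.sqrt l := Real.sqrt_div hD0 l
  by_cases hDl : D / l ≤ 1
  · refine (measure_mono (key l hl)).trans ?_
    have hsub : Bs φ L δ (D / l) ⊆ YO Ω := fun p hp => hδΩ hp.1
    refine ((hB _ (bs_meas hφ hδΩ _) hsub).2.2).trans ?_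
    have h1 : ∫⁻ p in Bs φ L δ (D / l), ENNReal.ofReal (Real.exp (2 * φ p.1)) ≤
        ∫⁻ p in Bs φ L δ (D / l), ENNReal.ofReal (Real.exp (2 * G)) := by
      refine setLIntegral_mono measurable_const fun p hp => ?_
      refine ENNReal.ofReal_le_ofReal (Real.exp_le_exp.2 ?_)
      linarith [hG1 p.1 hp.1]
    refine h1.trans ?_
    rw [setLIntegral_const]
    refine (mul_le_mul_right (bs_vol hφ hδΩ hC2' (by positivity) hDl) _).trans ?_
    rw [hVe, ← ENNReal.ofReal_mul (by positivity), ← ENNReal.ofReal_mul (by positivity)]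
    refine ENNReal.ofReal_le_ofReal ?_
    rw [hsq, le_div_iff₀ hsl]
    have e : Real.exp (2 * G) * (E * (Real.sqrt D / Real.sqrt l) * V) * Real.sqrt l =
        Real.exp (2 * G) * (E * Real.sqrt D * V) := by
      field_simp
    rw [e]
    have : 0 ≤ W * Real.sqrt D := by positivity
    linarith
  · refine (measure_mono (subset_univ _)).trans ?_
    rw [hWe]
    refine ENNReal.ofReal_le_ofReal ?_
    rw [le_div_iff₀ hsl]
    have h1 : Real.sqrt l ≤ Real.sqrt D := by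
      refine Real.sqrt_le_sqrt ?_
      have h2 := not_le.1 hDl
      rw [lt_div_iff₀ hl0] at h2
      linarith
    have h2 : 0 ≤ Real.exp (2 * G) * (E * Real.sqrt D * V) := by positivity
    have h3 := mul_le_mul_of_nonneg_left h1 hW0
    linarith

/-- the unit tangent bundle satisfies the hypotheses of the abstract theorem -/
theorem pk2 : StUniq → StFrame → StCoc → StVarUp → StEt → StFinP → StDWP → StAlgP → StDens →
    StDvP → StFlP → StMpP → StAlP → StCocP → StKP2 → StClP2 → StPk2 := by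
  intro _ _ hCoc hVar _ hFin hDW hAlg hDens hDv hFlP hMp hAl hCocP hKP hCl
  intro M P _ _ _ _ _ _ Ω φ pr q m Fl L δ δ' κ C x0 g hUT hLiou hGeo hCls
  obtain ⟨c, c1, s, s1, hc⟩ := hCoc Ω φ Fl hUT.opn hUT.smooth hGeo
  obtain ⟨hfin, -, -⟩ := hFin M P Ω φ pr q m hUT hLiou
  obtain ⟨hlft, -, hdW⟩ := hDW M P Ω φ pr q hUT
  obtain ⟨-, hflc, hfl0, hfla⟩ := hFlP M P Ω φ pr q Fl hUT hGeo
  obtain ⟨hone, haddA, hmulA, hinvA⟩ := hAlg M P Ω φ pr q hUT
  obtain ⟨hon, hcc, hcc1, hcs, hcs1, hjac, hcmp⟩ :=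
    hCocP M P Ω φ pr q m Fl hUT hLiou hGeo c c1 s s1 hc
  obtain ⟨hkq, hkA, hk0, hkV, hkH⟩ := hKP M P Ω φ pr q L δ δ' κ C x0 g hUT hCls
  obtain ⟨C', hC'⟩ := hCl M P Ω φ pr q m Fl L δ δ' κ C x0 g hUT hLiou hGeo hCls
  have hopen : IsOpen (YO Ω) := hUT.opn.preimage continuous_fst
  have huq : ∀ T, ∀ p ∈ YO Ω, uu (onP Ω q c) (onP Ω q s) T (q p) = uu c s T p := by
    intro T p hp
    unfold uu
    rw [(hon T p hp).1, (hon T p hp).2.2.1]
  refine ⟨onP Ω q c, onP Ω q c1, onP Ω q s, onP Ω q s1, ?_⟩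
  refine
    { fin := hfin
      flc := hflc
      fl0 := hfl0
      fla := hfla
      flm := fun t => hMp M P Ω φ pr q m Fl hUT hLiou hGeo t
      ct := fun F hF => (hdW F hF).1
      cst := hone
      add := haddA
      mul := hmulA
      inv := hinvA
      dvX := hDv M P Ω φ pr q m hUT hLiou (XX φ) (Or.inl rfl)
      dvH := hDv M P Ω φ pr q m hUT hLiou (HH φ) (Or.inr (Or.inl rfl))
      dvV := hDv M P Ω φ pr q m hUT hLiou (fun _ => VV) (Or.inr (Or.inr rfl))
      dens := hDens M P Ω φ pr q m hUT hfin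
      cmp := fun F hF t => ⟨(hAl M P Ω φ pr q Fl hUT hGeo F hF).1 t, fun x => hcmp F hF t x⟩
      alg := fun F hF x t => (hAl M P Ω φ pr q Fl hUT hGeo F hF).2 x t
      kA := hkA
      k0 := hk0
      kV := hkV
      kH := ⟨C, hkH⟩
      jc := ⟨hcc, hcc1, hcs, hcs1⟩
      jac := hjac
      uA := ?_
      cl := ⟨κ, C', hCls.posκ, hC'⟩ }
  intro T hT
  obtain ⟨hsm, hfd⟩ := hVar Ω φ Fl hUT.opn hUT.smooth hGeo hCls.neg c c1 s s1 hc T hT
  refine ⟨(hsm.of_le (by exact_mod_cast le_top)).congr (fun p hp => huq T p hp), fun x => ?_⟩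
  have hp : lft Ω q x ∈ YO Ω := (hlft x).1
  have hev : (fun p => uu (onP Ω q c) (onP Ω q s) T (q p)) =ᶠ[𝓝 (lft Ω q x)] uu c s T := by
    filter_upwards [hopen.mem_nhds hp] with p hp'
    exact huq T p hp'
  have hfe := hev.fderiv_eq (𝕜 := ℝ)
  have hkk : ∀ t, dW Ω q (HH φ) (kP Ω φ q) (FlP Ω q Fl t x) =
      -fderiv ℝ (curv φ) (Fl t (lft Ω q x)).1 (HH φ (Fl t (lft Ω q x))).1 := fun t =>
    (hkq (Fl t (lft Ω q x)) (hGeo.maps t _ hp)).2
  constructor
  · have h1 : dW Ω q (fun _ => VV) (uu (onP Ω q c) (onP Ω q s) T) x =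
        fderiv ℝ (uu c s T) (lft Ω q x) VV := by
      unfold dW
      rw [hfe]
    rw [h1, (hfd _ hp).1, ← intervalIntegral.integral_neg]
    refine intervalIntegral.integral_congr fun t _ => ?_
    rw [hkk t]
    simp only [yy, uu, onP]
    ring
  · have h1 : dW Ω q (HH φ) (uu (onP Ω q c) (onP Ω q s) T) x =
        fderiv ℝ (uu c s T) (lft Ω q x) (HH φ (lft Ω q x)) := by
      unfold dW
      rw [hfe]
    rw [h1, (hfd _ hp).2, ← intervalIntegral.integral_neg]
    refine intervalIntegral.integral_congr fun t _ => ?_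
    rw [hkk t]
    simp only [yy, uu, onP]
    ring

end Pool.Agent.H284.CG
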