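import Pool.Agent.H629.CG.Stm

/-!
# MP_e22585_pr: the comparison field with independent blocks
-/

set_option autoImplicit false

namespace Pool.Agent.H284.CG.BLK

open MeasureTheory ProbabilityTheory Filter Topology Set Pool.Agent.H629.CG
open scoped ENNReal NNReal

theorem map_aff (a b : ℝ) (ha : a ≠ 0) :
    Measure.map (fun x : ℝ => a * x - b) volume = ENNReal.ofReal |a⁻¹| • (volume : Measure ℝ) := by
  have h1 : (fun x : ℝ => a * x - b) = (fun x => x - b) ∘ (fun x => a * x) := rfl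
  rw [h1, ← Measure.map_map (by fun_prop) (by fun_prop), Real.map_volume_mul_left ha,
    Measure.map_smul, map_sub_right_eq_self]

theorem mem_blk_iff {m : ℕ} (hm : 0 < m) (j : ℕ) (u : ℝ) :
    u ∈ blk m j ↔ 2 * m * u - (j : ℝ) / 2 ∈ Hf := by
  have hm' : (0 : ℝ) < m := Nat.cast_pos.2 hm
  unfold blk Hf
  rw [mem_Ico, mem_Ico, div_le_iff₀ (by positivity), lt_div_iff₀ (by positivity)]
  constructor
  · rintro ⟨h1, h2⟩
    constructor <;> nlinarith
  · rintro ⟨h1, h2⟩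
    constructor <;> nlinarith

theorem subst {m : ℕ} (hm : 0 < m) (j : ℕ) (f : ℝ → ℝ≥0∞) (hf : Measurable f) :
    ∫⁻ u in blk m j, f (2 * m * u - (j : ℝ) / 2) =
      ENNReal.ofReal (2 * m) ⁻¹ * ∫⁻ v in Hf, f v := by
  have hm' : (0 : ℝ) < m := Nat.cast_pos.2 hm
  have hH : MeasurableSet Hf := measurableSet_Ico
  have h1 := map_aff (2 * m) ((j : ℝ) / 2) (by positivity)
  have h2 : ∫⁻ v, Hf.indicator f v ∂(Measure.map (fun x : ℝ => 2 * m * x - (j : ℝ) / 2) volume) =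
      ∫⁻ u, Hf.indicator f (2 * m * u - (j : ℝ) / 2) :=
    lintegral_map (hf.indicator hH) (by fun_prop)
  rw [h1, lintegral_smul_measure, lintegral_indicator hH, smul_eq_mul,
    abs_of_pos (by positivity)] at h2
  have hB : MeasurableSet (blk m j) := measurableSet_Ico
  rw [h2, ← lintegral_indicator hB]
  refine lintegral_congr fun u => ?_
  by_cases hu : u ∈ blk m j
  · rw [indicator_of_mem hu, indicator_of_mem ((mem_blk_iff hm j u).1 hu)]
  · rw [indicator_of_notMem hu,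
      indicator_of_notMem (fun h => hu ((mem_blk_iff hm j u).2 h))]

theorem hg_add_const {Ω : Type} [MeasurableSpace Ω] {Q : Measure Ω} {n : ℕ}
    {Z : Ω → Fin n → ℝ} (h : HasGaussianLaw Z Q) (c : Fin n → ℝ) :
    HasGaussianLaw (fun ω => Z ω + c) Q := by
  refine ⟨?_⟩
  have h1 : (fun ω => Z ω + c) = (fun x => x + c) ∘ Z := rfl
  have h2 := h.isGaussian_map
  rw [h1, ← AEMeasurable.map_map_of_aemeasurable (by fun_prop) h.aemeasurable]
  infer_instance

/-- the local coordinate -/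
noncomputable def loc (m c : ℕ) (i : Fin m) (s : ℝ) : ℝ := 2 * m * s - ((2 * i + c : ℕ) : ℝ) / 2

/-- the process -/
noncomputable def YY {Ω : Type} (X : ℝ → Ω → ℝ) (V : ℝ) (m c : ℕ) (s : ℝ)
    (ω : (Fin m → Ω) × ℝ) : ℝ :=
  ∑ i : Fin m, (blk m (2 * i + c)).indicator
    (fun s => √V * ω.2 - V / 2 + X (loc m c i s) (ω.1 i)) s

open Classical in
/-- its covariance -/
noncomputable def LL (K : ℝ → ℝ → ℝ) (V : ℝ) (m c : ℕ) (s t : ℝ) : ℝ :=
  V + ∑ i : Fin m, if s ∈ blk m (2 * i + c) ∧ t ∈ blk m (2 * i + c) then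
    K (loc m c i s) (loc m c i t) else 0

theorem blk_disj (hG : S_GEO) {m c : ℕ} (hm : 0 < m) (hc : c ≤ 1) {i i' : Fin m} {s : ℝ}
    (h : s ∈ blk m (2 * i + c)) (h' : s ∈ blk m (2 * i' + c)) : i = i' := by
  by_contra hne
  have h1 := ((hG m hm).2.2.2.2 c hc i i' hne s h s h').1
  rw [sub_self, abs_zero] at h1
  have hm' : (0 : ℝ) < m := Nat.cast_pos.2 hm
  have h2 : 0 < 1 / (4 * (m : ℝ)) := by positivity
  linarith

theorem loc_mem {m c : ℕ} (hm : 0 < m) {i : Fin m} {s : ℝ} (h : s ∈ blk m (2 * i + c)) :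
    loc m c i s ∈ Hf := (mem_blk_iff hm _ s).1 h

theorem YY_eq (hG : S_GEO) {Ω : Type} (X : ℝ → Ω → ℝ) (V : ℝ) {m c : ℕ} (hm : 0 < m) (hc : c ≤ 1)
    {i : Fin m} {s : ℝ} (h : s ∈ blk m (2 * i + c)) (ω : (Fin m → Ω) × ℝ) :
    YY X V m c s ω = √V * ω.2 - V / 2 + X (loc m c i s) (ω.1 i) := by
  unfold YY
  rw [Finset.sum_eq_single i]
  · rw [indicator_of_mem h]
  · intro j _ hj
    rw [indicator_of_notMem]
    intro h'
    exact hj (blk_disj hG hm hc h' h)
  · intro hi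
    exact absurd (Finset.mem_univ i) hi

theorem LL_same (hG : S_GEO) (K : ℝ → ℝ → ℝ) (V : ℝ) {m c : ℕ} (hm : 0 < m) (hc : c ≤ 1)
    {i : Fin m} {s t : ℝ} (h : s ∈ blk m (2 * i + c)) (h' : t ∈ blk m (2 * i + c)) :
    LL K V m c s t = V + K (loc m c i s) (loc m c i t) := by
  unfold LL
  rw [Finset.sum_eq_single i, if_pos ⟨h, h'⟩]
  · intro j _ hj
    rw [if_neg]
    rintro ⟨h1, -⟩
    exact hj (blk_disj hG hm hc h1 h)
  · intro hi
    exact absurd (Finset.mem_univ i) hi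

theorem LL_diff (hG : S_GEO) (K : ℝ → ℝ → ℝ) (V : ℝ) {m c : ℕ} (hm : 0 < m) (hc : c ≤ 1)
    {i i' : Fin m} (hne : i ≠ i') {s t : ℝ} (h : s ∈ blk m (2 * i + c))
    (h' : t ∈ blk m (2 * i' + c)) : LL K V m c s t = V := by
  unfold LL
  rw [Finset.sum_eq_zero, add_zero]
  intro j _
  rw [if_neg]
  rintro ⟨h1, h2⟩
  exact hne ((blk_disj hG hm hc h h1).trans (blk_disj hG hm hc h2 h'))

section field

variable {Ω : Type} [MeasurableSpace Ω] {P : Measure Ω} [IsProbabilityMeasure P]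

/-- the product measure -/
noncomputable abbrev QQ (P : Measure Ω) (m : ℕ) : Measure ((Fin m → Ω) × ℝ) :=
  (Measure.pi fun _ : Fin m => P).prod (gaussianReal 0 1)

theorem mp_coord (P : Measure Ω) [IsProbabilityMeasure P] (m : ℕ) (i : Fin m) :
    MeasurePreserving (fun ω : (Fin m → Ω) × ℝ => ω.1 i) (QQ P m) P :=
  (measurePreserving_eval (fun _ : Fin m => P) i).comp measurePreserving_fst

theorem meas_X {X : ℝ → Ω → ℝ} (hX : Measurable (Function.uncurry X)) (t : ℝ) :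
    Measurable (X t) := hX.comp (measurable_const.prodMk measurable_id)

theorem YY_meas {X : ℝ → Ω → ℝ} (hX : Measurable (Function.uncurry X)) (V : ℝ) (m c : ℕ) :
    Measurable (Function.uncurry (YY X V m c)) := by
  unfold YY
  refine Finset.measurable_fun_sum _ fun i _ => ?_
  have hB : MeasurableSet (blk m (2 * i + c)) := measurableSet_Ico
  have h1 : Measurable fun p : ℝ × ((Fin m → Ω) × ℝ) =>
      √V * p.2.2 - V / 2 + X (loc m c i p.1) (p.2.1 i) := by
    refine Measurable.add (by fun_prop) ?_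
    have h2 : Measurable fun p : ℝ × ((Fin m → Ω) × ℝ) => (loc m c i p.1, p.2.1 i) := by
      unfold loc
      fun_prop
    exact hX.comp h2
  exact h1.indicator (measurable_fst hB)

theorem gauss_lift {X : ℝ → Ω → ℝ} {m n : ℕ} (τ : Fin n → ℝ)
    (h : HasGaussianLaw (fun ω (k : Fin n) => X (τ k) ω) P) (hX : Measurable (Function.uncurry X)) :
    HasGaussianLaw (fun ω : (Fin m → Ω) × ℝ =>
      ((fun (i : Fin m) (k : Fin n) => X (τ k) (ω.1 i)), ω.2)) (QQ P m) := by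
  have hm : Measurable (fun ω (k : Fin n) => X (τ k) ω) :=
    measurable_pi_lambda _ fun k => meas_X hX (τ k)
  have h1 : ∀ i : Fin m, HasGaussianLaw
      (fun (η : Fin m → Ω) (k : Fin n) => X (τ k) (η i)) (Measure.pi fun _ : Fin m => P) := by
    intro i
    refine ⟨?_⟩
    have h2 : (fun (η : Fin m → Ω) (k : Fin n) => X (τ k) (η i)) =
        (fun ω (k : Fin n) => X (τ k) ω) ∘ (fun η : Fin m → Ω => η i) := rfl
    rw [h2, ← Measure.map_map hm (measurable_pi_apply i),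
      (measurePreserving_eval (fun _ : Fin m => P) i).map_eq]
    exact h.isGaussian_map
  have h3 : iIndepFun (fun (i : Fin m) (η : Fin m → Ω) (k : Fin n) => X (τ k) (η i))
      (Measure.pi fun _ : Fin m => P) :=
    iIndepFun_pi (X := fun (_ : Fin m) ω (k : Fin n) => X (τ k) ω) fun _ => hm.aemeasurable
  have h4 := iIndepFun.hasGaussianLaw h1 h3
  have hm4 : Measurable (fun (η : Fin m → Ω) (i : Fin m) (k : Fin n) => X (τ k) (η i)) :=
    measurable_pi_lambda _ fun i => hm.comp (measurable_pi_apply i)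
  have h5 : HasGaussianLaw (fun ω : (Fin m → Ω) × ℝ =>
      (fun (i : Fin m) (k : Fin n) => X (τ k) (ω.1 i))) (QQ P m) := by
    refine ⟨?_⟩
    have h2 : (fun ω : (Fin m → Ω) × ℝ => (fun (i : Fin m) (k : Fin n) => X (τ k) (ω.1 i))) =
        (fun (η : Fin m → Ω) (i : Fin m) (k : Fin n) => X (τ k) (η i)) ∘ Prod.fst := rfl
    rw [h2, ← Measure.map_map hm4 measurable_fst, measurePreserving_fst.map_eq]
    exact h4.isGaussian_map
  have h6 : HasGaussianLaw (fun ω : (Fin m → Ω) × ℝ => ω.2) (QQ P m) := by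
    refine ⟨?_⟩
    have h2 : (fun ω : (Fin m → Ω) × ℝ => ω.2) = Prod.snd := rfl
    rw [h2, measurePreserving_snd.map_eq]
    infer_instance
  exact IndepFun.hasGaussianLaw h5 h6
    (indepFun_prod (X := fun (η : Fin m → Ω) (i : Fin m) (k : Fin n) => X (τ k) (η i))
      (Y := fun x : ℝ => x) hm4 measurable_id)

theorem YY_gauss (hG : S_GEO) {X : ℝ → Ω → ℝ} {K : ℝ → ℝ → ℝ} (hX : LNF Hf P X K) (V : ℝ)
    {m c : ℕ} (hm : 0 < m) (hc : c ≤ 1) (n : ℕ) (t : Fin n → ℝ) (ht : ∀ k, t k ∈ evn m c) :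
    HasGaussianLaw (fun ω (k : Fin n) => YY X V m c (t k) ω) (QQ P m) := by
  have h1 : ∀ k, ∃ i : Fin m, t k ∈ blk m (2 * i + c) := fun k => mem_iUnion.1 (ht k)
  choose idx hidx using h1
  have h2 := gauss_lift (m := m) (fun k => loc m c (idx k) (t k))
    (hX.gauss n _ fun k => loc_mem hm (hidx k)) hX.meas
  let L : ((Fin m → Fin n → ℝ) × ℝ) →L[ℝ] (Fin n → ℝ) :=
    ContinuousLinearMap.pi fun k =>
      √V • ContinuousLinearMap.snd ℝ (Fin m → Fin n → ℝ) ℝ +
        ((ContinuousLinearMap.proj (R := ℝ) (φ := fun _ : Fin n => ℝ) k).comp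
          (ContinuousLinearMap.proj (R := ℝ) (φ := fun _ : Fin m => Fin n → ℝ) (idx k))).comp
          (ContinuousLinearMap.fst ℝ (Fin m → Fin n → ℝ) ℝ)
  have h3 := hg_add_const (h2.map_fun L) (fun _ => -(V / 2))
  have h4 : (fun ω (k : Fin n) => YY X V m c (t k) ω) =
      fun ω : (Fin m → Ω) × ℝ => L ((fun (i : Fin m) (k : Fin n) =>
        X (loc m c (idx k) (t k)) (ω.1 i)), ω.2) + (fun _ => -(V / 2)) := by
    funext ω k
    rw [YY_eq hG X V hm hc (hidx k)]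
    show _ = √V * ω.2 + X (loc m c (idx k) (t k)) (ω.1 (idx k)) + -(V / 2)
    ring
  rw [h4]
  exact h3

omit [IsProbabilityMeasure P] in
theorem memLp_X {A : Set ℝ} {X : ℝ → Ω → ℝ} {K : ℝ → ℝ → ℝ} (hX : LNF A P X K) {t : ℝ}
    (ht : t ∈ A) : MemLp (X t) 2 P :=
  ((hX.gauss 1 (fun _ => t) (fun _ => ht)).eval 0).memLp_two

theorem memLp_B {X : ℝ → Ω → ℝ} {K : ℝ → ℝ → ℝ} (hX : LNF Hf P X K) {t : ℝ}
    (ht : t ∈ Hf) {m : ℕ} (i : Fin m) :
    MemLp (fun ω : (Fin m → Ω) × ℝ => X t (ω.1 i)) 2 (QQ P m) :=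
  (memLp_X hX ht).comp_measurePreserving (mp_coord P m i)

theorem memLp_A (V : ℝ) (m : ℕ) :
    MemLp (fun ω : (Fin m → Ω) × ℝ => √V * ω.2) 2 (QQ P m) := by
  have h1 : MemLp (fun x : ℝ => x) 2 (gaussianReal 0 1) := memLp_id_gaussianReal 2
  have h2 : MemLp (fun ω : (Fin m → Ω) × ℝ => ω.2) 2 (QQ P m) :=
    h1.comp_measurePreserving measurePreserving_snd
  exact h2.const_mul _

theorem int_A (V : ℝ) (m : ℕ) : ∫ ω : (Fin m → Ω) × ℝ, √V * ω.2 ∂(QQ P m) = 0 := by
  rw [integral_const_mul]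
  have h1 : ∫ ω : (Fin m → Ω) × ℝ, ω.2 ∂(QQ P m) = ∫ x, x ∂(Measure.map Prod.snd (QQ P m)) :=
    (integral_map (μ := QQ P m) (φ := Prod.snd) (f := fun x : ℝ => x)
      measurable_snd.aemeasurable measurable_id.aestronglyMeasurable).symm
  rw [h1, measurePreserving_snd.map_eq, integral_id_gaussianReal, mul_zero]

theorem int_B {X : ℝ → Ω → ℝ} (hX : Measurable (Function.uncurry X)) (t : ℝ) {m : ℕ} (i : Fin m) :
    ∫ ω : (Fin m → Ω) × ℝ, X t (ω.1 i) ∂(QQ P m) = ∫ ω, X t ω ∂P := by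
  have h1 := integral_map (μ := QQ P m) (mp_coord P m i).measurable.aemeasurable (f := X t)
    (meas_X hX t).aestronglyMeasurable
  rw [(mp_coord P m i).map_eq] at h1
  exact h1.symm

theorem cov_AA {V : ℝ} (hV : 0 ≤ V) (m : ℕ) :
    cov[fun ω : (Fin m → Ω) × ℝ => √V * ω.2, fun ω => √V * ω.2; QQ P m] = V := by
  rw [covariance_const_mul_left, covariance_const_mul_right]
  have h1 := covariance_map_fun (μ := QQ P m) (X := fun x : ℝ => x) (Y := fun x : ℝ => x)
    (Z := Prod.snd) (by fun_prop) (by fun_prop) measurable_snd.aemeasurable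
  rw [← h1, measurePreserving_snd.map_eq, covariance_self (by fun_prop),
    variance_fun_id_gaussianReal, NNReal.coe_one, mul_one, Real.mul_self_sqrt hV]

theorem cov_BA {X : ℝ → Ω → ℝ} {K : ℝ → ℝ → ℝ} (hX : LNF Hf P X K) {t : ℝ}
    (ht : t ∈ Hf) (V : ℝ) {m : ℕ} (i : Fin m) :
    cov[fun ω : (Fin m → Ω) × ℝ => X t (ω.1 i), fun ω => √V * ω.2; QQ P m] = 0 := by
  have h1 : MemLp (fun η : Fin m → Ω => X t (η i)) 2 (Measure.pi fun _ : Fin m => P) :=
    (memLp_X hX ht).comp_measurePreserving (measurePreserving_eval (fun _ : Fin m => P) i)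
  have h2 : MemLp (fun x : ℝ => √V * x) 2 (gaussianReal 0 1) :=
    MemLp.const_mul (memLp_id_gaussianReal 2) _
  exact covariance_fst_snd_prod h1 h2

theorem cov_BB_same {X : ℝ → Ω → ℝ} (hX : Measurable (Function.uncurry X)) (s t : ℝ) {m : ℕ}
    (i : Fin m) :
    cov[fun ω : (Fin m → Ω) × ℝ => X s (ω.1 i), fun ω => X t (ω.1 i); QQ P m] =
      cov[X s, X t; P] := by
  have h1 := covariance_map_fun (μ := QQ P m) (X := X s) (Y := X t)
    (Z := fun ω : (Fin m → Ω) × ℝ => ω.1 i) (meas_X hX s).aestronglyMeasurable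
    (meas_X hX t).aestronglyMeasurable (mp_coord P m i).measurable.aemeasurable
  rw [(mp_coord P m i).map_eq] at h1
  exact h1.symm

theorem cov_BB_diff {X : ℝ → Ω → ℝ} {K : ℝ → ℝ → ℝ} (hX : LNF Hf P X K) {s t : ℝ}
    (hs : s ∈ Hf) (ht : t ∈ Hf) {m : ℕ} {i i' : Fin m} (hne : i ≠ i') :
    cov[fun ω : (Fin m → Ω) × ℝ => X s (ω.1 i), fun ω => X t (ω.1 i'); QQ P m] = 0 := by
  have h3 : iIndepFun (fun (j : Fin m) (η : Fin m → Ω) => η j)
      (Measure.pi fun _ : Fin m => P) :=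
    iIndepFun_pi (X := fun (_ : Fin m) (ω : Ω) => ω) fun _ => measurable_id.aemeasurable
  have h4 := (h3.indepFun hne).comp (meas_X hX.meas s) (meas_X hX.meas t)
  have h5 := h4.covariance_eq_zero
    ((memLp_X hX hs).comp_measurePreserving (measurePreserving_eval (fun _ : Fin m => P) i))
    ((memLp_X hX ht).comp_measurePreserving (measurePreserving_eval (fun _ : Fin m => P) i'))
  have h1 := covariance_map_fun (μ := QQ P m) (X := fun η : Fin m → Ω => X s (η i))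
    (Y := fun η : Fin m → Ω => X t (η i')) (Z := Prod.fst)
    ((meas_X hX.meas s).comp (measurable_pi_apply i)).aestronglyMeasurable
    ((meas_X hX.meas t).comp (measurable_pi_apply i')).aestronglyMeasurable
    measurable_fst.aemeasurable
  rw [measurePreserving_fst.map_eq] at h1
  rw [← h1]
  exact h5

theorem YY_cov (hG : S_GEO) {X : ℝ → Ω → ℝ} {K : ℝ → ℝ → ℝ} (hX : LNF Hf P X K) {V : ℝ}
    (hV : 0 ≤ V) {m c : ℕ} (hm : 0 < m) (hc : c ≤ 1) {i i' : Fin m} {s t : ℝ}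
    (hs : s ∈ blk m (2 * i + c)) (ht : t ∈ blk m (2 * i' + c)) :
    cov[YY X V m c s, YY X V m c t; QQ P m] = V +
      cov[fun ω : (Fin m → Ω) × ℝ => X (loc m c i s) (ω.1 i),
        fun ω => X (loc m c i' t) (ω.1 i'); QQ P m] := by
  have e1 : YY X V m c s = fun ω => ((fun ω : (Fin m → Ω) × ℝ => √V * ω.2) +
      (fun ω : (Fin m → Ω) × ℝ => X (loc m c i s) (ω.1 i))) ω + (-(V / 2)) := by
    funext ω
    rw [YY_eq hG X V hm hc hs, Pi.add_apply]
    ring
  have e2 : YY X V m c t = fun ω => ((fun ω : (Fin m → Ω) × ℝ => √V * ω.2) +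
      (fun ω : (Fin m → Ω) × ℝ => X (loc m c i' t) (ω.1 i'))) ω + (-(V / 2)) := by
    funext ω
    rw [YY_eq hG X V hm hc ht, Pi.add_apply]
    ring
  have hA := memLp_A (P := P) V m
  have hB := memLp_B hX (loc_mem hm hs) i
  have hB' := memLp_B hX (loc_mem hm ht) i'
  rw [e1, e2, covariance_add_const_left ((hA.add hB).integrable one_le_two),
    covariance_add_const_right ((hA.add hB').integrable one_le_two),
    covariance_add_left hA hB (hA.add hB'), covariance_add_right hA hA hB',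
    covariance_add_right hB hA hB', cov_AA hV, cov_BA hX (loc_mem hm hs),
    covariance_comm (fun ω : (Fin m → Ω) × ℝ => √V * ω.2), cov_BA hX (loc_mem hm ht)]
  ring

theorem YY_mean (hG : S_GEO) {X : ℝ → Ω → ℝ} {K : ℝ → ℝ → ℝ} (hX : LNF Hf P X K) (V : ℝ)
    {m c : ℕ} (hm : 0 < m) (hc : c ≤ 1) {i : Fin m} {s : ℝ} (hs : s ∈ blk m (2 * i + c)) :
    ∫ ω, YY X V m c s ω ∂(QQ P m) = -(V + K (loc m c i s) (loc m c i s)) / 2 := by
  have e1 : ∀ ω, YY X V m c s ω = (√V * ω.2 + X (loc m c i s) (ω.1 i)) + (-(V / 2)) := by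
    intro ω
    rw [YY_eq hG X V hm hc hs]
    ring
  simp_rw [e1]
  have hA := (memLp_A (P := P) V m).integrable one_le_two
  have hB := (memLp_B hX (loc_mem hm hs) i).integrable one_le_two
  rw [integral_add (f := fun ω : (Fin m → Ω) × ℝ => √V * ω.2 + X (loc m c i s) (ω.1 i))
    (g := fun _ => -(V / 2)) (hA.add hB) (integrable_const _), integral_add hA hB, int_A,
    int_B hX.meas, hX.mean _ (loc_mem hm hs), integral_const, probReal_univ]
  simp only [smul_eq_mul]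
  ring

theorem lnf (hG : S_GEO) {X : ℝ → Ω → ℝ} {K : ℝ → ℝ → ℝ} (hX : LNF Hf P X K) {V : ℝ}
    (hV : 0 ≤ V) {m c : ℕ} (hm : 0 < m) (hc : c ≤ 1) :
    LNF (evn m c) (QQ P m) (YY X V m c) (LL K V m c) where
  meas := YY_meas hX.meas V m c
  gauss n t ht := YY_gauss hG hX V hm hc n t ht
  mean t ht := by
    obtain ⟨i, hi⟩ := mem_iUnion.1 ht
    rw [YY_mean hG hX V hm hc hi, LL_same hG K V hm hc hi hi]
  cov s hs t ht := by
    obtain ⟨i, hi⟩ := mem_iUnion.1 hs
    obtain ⟨i', hi'⟩ := mem_iUnion.1 ht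
    rw [YY_cov hG hX hV hm hc hi hi']
    by_cases h : i = i'
    · subst h
      rw [cov_BB_same hX.meas, hX.cov _ (loc_mem hm hi) _ (loc_mem hm hi'),
        LL_same hG K V hm hc hi hi']
    · rw [cov_BB_diff hX (loc_mem hm hi) (loc_mem hm hi') h, LL_diff hG K V hm hc h hi hi',
        add_zero]

theorem mul_rpow_pos {x y : ℝ≥0∞} (h0 : x ≠ 0) (h1 : x ≠ ⊤) (a : ℝ) :
    (x * y) ^ a = x ^ a * y ^ a := by
  rw [ENNReal.mul_rpow_eq_ite, if_neg]
  rintro ⟨(⟨h, -⟩ | ⟨h, -⟩), -⟩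
  · exact h0 h
  · exact h1 h

theorem ex_rpow (x a : ℝ) : ex x ^ a = ex (a * x) := by
  unfold ex
  rw [ENNReal.ofReal_rpow_of_pos (Real.exp_pos _), ← Real.exp_mul, mul_comm]

theorem ex_add (x y : ℝ) : ex (x + y) = ex x * ex y := by
  unfold ex
  rw [Real.exp_add, ENNReal.ofReal_mul (Real.exp_pos _).le]

theorem gauss_exp (b d : ℝ) : ∫⁻ x, ex (b * x + d) ∂(gaussianReal 0 1) = ex (b ^ 2 / 2 + d) := by
  have h1 : Integrable (fun x : ℝ => Real.exp (b * x + d)) (gaussianReal 0 1) := by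
    have h2 := (integrable_exp_mul_gaussianReal (μ := 0) (v := 1) b).mul_const (Real.exp d)
    refine h2.congr (Filter.Eventually.of_forall fun x => ?_)
    show Real.exp (b * x) * Real.exp d = Real.exp (b * x + d)
    rw [Real.exp_add]
  have h2 : ∫ x, Real.exp (b * x + d) ∂(gaussianReal 0 1) = Real.exp (b ^ 2 / 2 + d) := by
    have h3 := congrFun (mgf_fun_id_gaussianReal (μ := 0) (v := 1)) b
    unfold mgf at h3
    simp_rw [Real.exp_add]
    rw [integral_mul_const, h3]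
    congr 2
    rw [NNReal.coe_one]
    ring
  unfold ex
  rw [← h2, ofReal_integral_eq_lintegral_ofReal h1
    (Filter.Eventually.of_forall fun x => (Real.exp_pos _).le)]

theorem mas_meas {A : Set ℝ} {X : ℝ → Ω → ℝ} (hX : Measurable (Function.uncurry X)) :
    Measurable (mas A X) := by
  unfold mas
  have h1 : Measurable fun p : Ω × ℝ => ENNReal.ofReal (Real.exp (X p.2 p.1)) :=
    (Real.measurable_exp.comp (hX.comp measurable_swap)).ennreal_ofReal
  exact h1.lintegral_prod_right'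

theorem meas_path {X : ℝ → Ω → ℝ} (hX : Measurable (Function.uncurry X)) (ω : Ω) :
    Measurable fun u => X u ω := hX.comp (measurable_id.prodMk measurable_const)

theorem mas_YY (hG : S_GEO) {X : ℝ → Ω → ℝ} (hX : Measurable (Function.uncurry X)) (V : ℝ)
    {m c : ℕ} (hm : 0 < m) (hc : c ≤ 1) (ω : (Fin m → Ω) × ℝ) :
    mas (evn m c) (YY X V m c) ω =
      (ex (√V * ω.2 - V / 2) * ENNReal.ofReal (2 * m)⁻¹) * ∑ i, mas Hf X (ω.1 i) := by
  have hd : Pairwise (Function.onFun Disjoint fun i : Fin m => blk m (2 * i + c)) := by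
    intro i j hij
    rw [Function.onFun, Set.disjoint_left]
    intro s h1 h2
    exact hij (blk_disj hG hm hc h1 h2)
  have hB : ∀ i : Fin m, MeasurableSet (blk m (2 * i + c)) := fun i => measurableSet_Ico
  unfold mas evn
  rw [lintegral_iUnion hB hd, tsum_fintype, Finset.mul_sum]
  refine Finset.sum_congr rfl fun i _ => ?_
  have h1 : ∫⁻ u in blk m (2 * i + c), ENNReal.ofReal (Real.exp (YY X V m c u ω)) =
      ∫⁻ u in blk m (2 * i + c), ex (√V * ω.2 - V / 2) *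
        (fun v => ENNReal.ofReal (Real.exp (X v (ω.1 i))))
          (2 * m * u - ((2 * i + c : ℕ) : ℝ) / 2) := by
    refine setLIntegral_congr_fun (hB i) fun u hu => ?_
    show ENNReal.ofReal (Real.exp (YY X V m c u ω)) = _
    rw [YY_eq hG X V hm hc hu, Real.exp_add, ENNReal.ofReal_mul (Real.exp_pos _).le]
    rfl
  have h2 : Measurable fun v => ENNReal.ofReal (Real.exp (X v (ω.1 i))) :=
    (Real.measurable_exp.comp (meas_path hX _)).ennreal_ofReal
  have h3 : Measurable fun u : ℝ => (fun v => ENNReal.ofReal (Real.exp (X v (ω.1 i))))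
      (2 * m * u - ((2 * i + c : ℕ) : ℝ) / 2) :=
    h2.comp (by fun_prop : Measurable fun u : ℝ => 2 * m * u - ((2 * i + c : ℕ) : ℝ) / 2)
  rw [h1, lintegral_const_mul _ h3, subst hm _ _ h2, mul_assoc]

omit [IsProbabilityMeasure P] in
theorem mom_YY (hG : S_GEO) {X : ℝ → Ω → ℝ} (hX : Measurable (Function.uncurry X)) {V : ℝ}
    (hV : 0 ≤ V) {m c : ℕ} (hm : 0 < m) (hc : c ≤ 1) (a : ℝ) :
    mom (QQ P m) (evn m c) (YY X V m c) a =
      ex ((a ^ 2 - a) / 2 * V) * ENNReal.ofReal (2 * m) ^ (-a) *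
        ∫⁻ η : Fin m → Ω, (∑ i, mas Hf X (η i)) ^ a ∂(Measure.pi fun _ => P) := by
  have hm' : (0 : ℝ) < 2 * m := by
    have : (0 : ℝ) < m := Nat.cast_pos.2 hm
    linarith
  have hk0 : ENNReal.ofReal (2 * m : ℝ)⁻¹ ≠ 0 := by
    rw [Ne, ENNReal.ofReal_eq_zero, not_le]
    positivity
  have hk1 : ENNReal.ofReal (2 * m : ℝ)⁻¹ ≠ ⊤ := ENNReal.ofReal_ne_top
  have he0 : ∀ x : ℝ, ex x ≠ 0 := by
    intro x
    unfold ex
    rw [Ne, ENNReal.ofReal_eq_zero, not_le]
    exact Real.exp_pos _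
  have he1 : ∀ x : ℝ, ex x ≠ ⊤ := fun x => ENNReal.ofReal_ne_top
  unfold mom
  have h1 : ∀ ω : (Fin m → Ω) × ℝ, mas (evn m c) (YY X V m c) ω ^ a =
      (∑ i, mas Hf X (ω.1 i)) ^ a *
        (ENNReal.ofReal (2 * m : ℝ)⁻¹ ^ a * ex ((a * √V) * ω.2 + (-(a * V / 2)))) := by
    intro ω
    rw [mas_YY hG hX V hm hc, mul_rpow_pos (mul_ne_zero (he0 _) hk0)
      (ENNReal.mul_ne_top (he1 _) hk1), mul_rpow_pos (he0 _) (he1 _), ex_rpow, mul_comm,
      mul_comm (ex _)]
    congr 3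
    ring
  simp_rw [h1]
  have hS : Measurable fun η : Fin m → Ω => (∑ i, mas Hf X (η i)) ^ a := by
    refine Measurable.pow_const ?_ _
    exact Finset.measurable_fun_sum _ fun i _ => (mas_meas hX).comp (measurable_pi_apply i)
  have hE : Measurable fun x : ℝ =>
      ENNReal.ofReal (2 * m : ℝ)⁻¹ ^ a * ex ((a * √V) * x + (-(a * V / 2))) := by
    unfold ex
    fun_prop
  rw [lintegral_prod_mul (f := fun η : Fin m → Ω => (∑ i, mas Hf X (η i)) ^ a)
    (g := fun x : ℝ => ENNReal.ofReal (2 * m : ℝ)⁻¹ ^ a * ex ((a * √V) * x + (-(a * V / 2))))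
    hS.aemeasurable hE.aemeasurable]
  have hE2 : Measurable fun x : ℝ => ex ((a * √V) * x + (-(a * V / 2))) := by
    unfold ex
    fun_prop
  rw [lintegral_const_mul _ hE2, gauss_exp]
  have h3 : (a * √V) ^ 2 / 2 + -(a * V / 2) = (a ^ 2 - a) / 2 * V := by
    rw [mul_pow, Real.sq_sqrt hV]
    ring
  have h4 : ENNReal.ofReal (2 * m : ℝ)⁻¹ ^ a = ENNReal.ofReal (2 * m) ^ (-a) := by
    rw [ENNReal.ofReal_inv_of_pos hm', ENNReal.inv_rpow, ENNReal.rpow_neg]
  rw [h3, h4]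
  ring

end field

theorem t_BLK : S_GEO → S_BLK := by
  intro hG Ω _ P _ X K hX V hV m c hm hc
  refine ⟨YY X V m c, LL K V m c, lnf hG hX hV hm hc, ?_, ?_, ?_⟩
  · intro i s hs t ht
    exact LL_same hG K V hm hc hs ht
  · intro i i' hne s hs t ht
    exact LL_diff hG K V hm hc hne hs ht
  · intro a
    exact mom_YY hG hX.meas hV hm hc a

end Pool.Agent.H284.CG.BLK
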